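import Pool.Agent.Helper42.QD.Stmts

namespace Pool.Agent.Helper42.QD

set_option linter.unusedSimpArgs false

variable {D k : Type} [DivisionRing D] [Field k] {c : VD D k} {R : KM c}

open VD

/-- A lift of an element of the residue field. -/
noncomputable def dz_l (c : VD D k) (a : k) : D := (c.r_surj a).choose

theorem dz_lP (a : k) : c.P 0 (dz_l c a) := (c.r_surj a).choose_spec.1

theorem dz_lr (a : k) : c.r (dz_l c a) = a := (c.r_surj a).choose_spec.2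

theorem dz_lu {a : k} (ha : a ≠ 0) : dz_l c a ≠ 0 ∧ c.v (dz_l c a) = 0 := by
  have h1 : ¬ c.P 1 (dz_l c a) := fun h => ha (by rw [← dz_lr (c := c) a]; exact (r_zero' (dz_lP a)).2 h)
  have h2 := ne_of_not_P h1
  have h3 := lt_of_not_P h1
  have h4 := (P_iff h2).1 (dz_lP (c := c) a)
  exact ⟨h2, by omega⟩

open Classical in
/-- Extension of a function on the units of the residue field. -/
noncomputable def dz_e (c : VD D k) (φ : kˣ → ℂ) : D → ℂ := fun y =>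
  if h : y ≠ 0 ∧ c.v y = 0 then φ (Units.mk0 (c.r y) (r_ne_zero h.1 h.2)) else 0

theorem dz_e_of {φ : kˣ → ℂ} {y : D} (h0 : y ≠ 0) (h1 : c.v y = 0) (a : kˣ) (h : c.r y = a) :
    dz_e c φ y = φ a := by
  rw [dz_e, dif_pos ⟨h0, h1⟩]
  congr 1
  exact Units.ext h

theorem dz_e_not {φ : kˣ → ℂ} {y : D} (h : ¬ (y ≠ 0 ∧ c.v y = 0)) : dz_e c φ y = 0 := by
  rw [dz_e, dif_neg h]

/-- units with the same residue differ by `1 + P`. -/
theorem dz_ratio {x y : D} (hx : x ≠ 0) (hxv : c.v x = 0) (hy : c.P 0 y) (h : c.r x = c.r y) :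
    ∃ u, c.P 1 u ∧ y = x * (1 + u) := by
  refine ⟨x⁻¹ * (y - x), ?_, ?_⟩
  · have h1 : c.P 1 (y - x) := (r_congr hy (Or.inr hxv.ge)).1 h.symm
    have h2 := P_inv (c := c) hx
    exact P_mul' h2 h1 (by omega)
  · rw [mul_add, mul_one, mul_inv_cancel_left₀ hx, add_sub_cancel]

theorem dz_IsS (φ : kˣ → ℂ) : IsS c (dz_e c φ) := by
  refine ⟨dz_e_not fun h => h.1 rfl, 1, one_pos, ?_, ?_⟩
  · intro x u hu
    have hu : c.P 1 u := hu
    have h1 := one_add hu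
    by_cases hx : x ≠ 0 ∧ c.v x = 0
    · have hy : x * (1 + u) ≠ 0 := mul_ne_zero hx.1 h1.1
      have hv : c.v (x * (1 + u)) = 0 := by
        rw [c.v_mul _ _ hx.1 h1.1, hx.2, h1.2]; rfl
      have hr : c.r (x * (1 + u)) = c.r x := by
        refine (r_congr (Or.inr hv.ge) (Or.inr hx.2.ge)).2 ?_
        rw [mul_add, mul_one, add_sub_cancel_left]
        exact P_mul' (m := 0) (Or.inr hx.2.ge) hu (by omega)
      rw [dz_e_of hy hv (Units.mk0 (c.r x) (r_ne_zero hx.1 hx.2)) hr,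
        dz_e_of hx.1 hx.2 (Units.mk0 (c.r x) (r_ne_zero hx.1 hx.2)) rfl]
    · rw [dz_e_not hx, dz_e_not]
      rintro ⟨h2, h3⟩
      apply hx
      have h4 : x ≠ 0 := left_ne_zero_of_mul h2
      refine ⟨h4, ?_⟩
      rw [c.v_mul _ _ h4 h1.1, h1.2] at h3
      omega
  · intro x hx
    by_cases h : x ≠ 0 ∧ c.v x = 0
    · rw [h.2]; simp
    · exact absurd (dz_e_not h) hx

/-- Extension as a linear map. -/
noncomputable def dz_E (c : VD D k) : (kˣ → ℂ) →ₗ[ℂ] Sp c where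
  toFun φ := ⟨dz_e c φ, dz_IsS φ⟩
  map_add' := by
    intro φ χ
    apply Subtype.ext
    funext y
    change dz_e c (φ + χ) y = dz_e c φ y + dz_e c χ y
    by_cases h : y ≠ 0 ∧ c.v y = 0
    · rw [dz_e, dz_e, dz_e, dif_pos h, dif_pos h, dif_pos h]; rfl
    · rw [dz_e_not h, dz_e_not h, dz_e_not h, add_zero]
  map_smul' := by
    intro a φ
    apply Subtype.ext
    funext y
    change dz_e c (a • φ) y = a * dz_e c φ y
    by_cases h : y ≠ 0 ∧ c.v y = 0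
    · rw [dz_e, dz_e, dif_pos h, dif_pos h]; rfl
    · rw [dz_e_not h, dz_e_not h, mul_zero]

theorem dz_E_of {φ : kˣ → ℂ} {y : D} (h0 : y ≠ 0) (h1 : c.v y = 0) (a : kˣ) (h : c.r y = a) :
    (dz_E c φ).1 y = φ a := dz_e_of h0 h1 a h

/-- Restriction. -/
noncomputable def dz_V (c : VD D k) : Sp c →ₗ[ℂ] (kˣ → ℂ) where
  toFun f := fun a => f.1 (dz_l c a)
  map_add' _ _ := rfl
  map_smul' _ _ := rfl

theorem dz_VE (φ : kˣ → ℂ) : dz_V c (dz_E c φ) = φ := by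
  funext a
  have h := dz_lu (c := c) a.ne_zero
  exact dz_E_of h.1 h.2 a (dz_lr _)

theorem dz_EV (hZ : ST_DZ0) [Finite k] {f : Sp c} (hf : Fix R 1 f) : dz_E c (dz_V c f) = f := by
  apply Sp_ext
  intro y
  change dz_e c (dz_V c f) y = f.1 y
  by_cases h : y ≠ 0 ∧ c.v y = 0
  · rw [dz_e_of h.1 h.2 (Units.mk0 (c.r y) (r_ne_zero h.1 h.2)) rfl]
    change f.1 (dz_l c (c.r y)) = f.1 y
    obtain ⟨u, hu, hu'⟩ := dz_ratio h.1 h.2 (dz_lP (c := c) (c.r y)) (dz_lr _).symm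
    rw [hu', Fix_right le_rfl hf hu]
  · rw [dz_e_not h]
    by_contra h'
    apply h
    have h1 := hZ D k c R f hf y (fun h2 => h' h2.symm)
    refine ⟨?_, h1⟩
    rintro rfl
    exact h' f.2.1.symm

theorem dz_EFix (hA : ST_A) [Finite k] {f : Sp c} (hf : Fix R 1 f) (hf0 : f ≠ 0) (φ : kˣ → ℂ) :
    Fix R 1 (dz_E c φ) := by
  classical
  have : Fintype k := Fintype.ofFinite k
  have h1 : ∀ a : kˣ, Fix R 1 (dz_E c (Pi.single a 1)) := by
    intro a
    have ha := dz_lu (c := c) a.ne_zero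
    have h2 := hA D k c R 0 f hf0 (by simpa using hf) (dz_l c a) ha.1 (by simpa using ha.2)
      (dz_E c (Pi.single a 1)) ?_
    · simpa using h2
    · funext y
      change dz_e c (Pi.single a 1) y = ind c (dz_l c a) 1 y
      by_cases h : y ≠ 0 ∧ c.v y = 0
      · rw [dz_e_of h.1 h.2 (Units.mk0 (c.r y) (r_ne_zero h.1 h.2)) rfl]
        have h3 : c.P 1 (y - dz_l c a) ↔ Units.mk0 (c.r y) (r_ne_zero h.1 h.2) = a := by
          rw [← r_congr (Or.inr h.2.ge) (dz_lP _), dz_lr, Units.ext_iff]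
          rfl
        by_cases h4 : Units.mk0 (c.r y) (r_ne_zero h.1 h.2) = a
        · rw [ind_apply_of (h3.2 h4), h4, Pi.single_eq_same]
        · rw [ind_apply_of_not fun h5 => h4 (h3.1 h5), Pi.single_eq_of_ne h4]
      · rw [dz_e_not h, ind_apply_of_not]
        intro h3
        apply h
        have h4 := v_congr ha.1 (c := c) (by rw [ha.2]; exact h3)
        exact ⟨h4.1, by rw [h4.2, ha.2]⟩
  have h2 : φ = ∑ a, φ a • (Pi.single a 1 : kˣ → ℂ) := by
    funext b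
    simp [Finset.sum_apply, Pi.single_apply]
  rw [h2, map_sum]
  exact (FixS R 1).sum_mem fun a _ => by
    rw [map_smul]
    exact (FixS R 1).smul_mem _ (h1 a)

/-- Lifts of matrices. -/
def dz_L (c : VD D k) (g : G2 k) (x : G2 D) : Prop := KO c x ∧ ∀ i j, c.r (x.val i j) = g.val i j

theorem dz_L_mul {g h : G2 k} {x y : G2 D} (hx : dz_L c g x) (hy : dz_L c h y) :
    dz_L c (g * h) (x * y) := by
  refine ⟨KO_mul hx.1 hy.1, fun i j => ?_⟩
  rw [Units.val_mul, Units.val_mul, Matrix.mul_apply, Matrix.mul_apply, Fin.sum_univ_two,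
    Fin.sum_univ_two, c.r_add, c.r_mul, c.r_mul, hx.2, hx.2, hy.2, hy.2]
  · exact hx.1.1 _ _
  · exact hy.1.1 _ _
  · exact hx.1.1 _ _
  · exact hy.1.1 _ _
  · exact P_mul' (hx.1.1 _ _) (hy.1.1 _ _) (by omega)
  · exact P_mul' (hx.1.1 _ _) (hy.1.1 _ _) (by omega)

theorem dz_r_zero : c.r 0 = 0 := (c.r_zero 0 (Or.inl rfl)).2 (Or.inl rfl)

theorem dz_L_of {g : G2 k} {x : G2 D} (hx : KO c x) (h0 : c.r (x.val 0 0) = g.val 0 0)
    (h1 : c.r (x.val 0 1) = g.val 0 1) (h2 : c.r (x.val 1 0) = g.val 1 0)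
    (h3 : c.r (x.val 1 1) = g.val 1 1) : dz_L c g x := by
  refine ⟨hx, fun i j => ?_⟩
  fin_cases i <;> fin_cases j
  exacts [h0, h1, h2, h3]

theorem dz_L_one : dz_L c 1 1 :=
  dz_L_of (by have := KO_mul (KO_ww (c := c)) KO_ww; rwa [ww_ww] at this) (by simp [c.r_one])
    (by simp [dz_r_zero]) (by simp [dz_r_zero]) (by simp [c.r_one])

theorem dz_L_nn {b : k} {b' : D} (hb : c.P 0 b') (h : c.r b' = b) : dz_L c (nn b) (nn b') :=
  dz_L_of (KO_nn hb) (by simp [nn_val, c.r_one]) (by simp [nn_val, h])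
    (by simp [nn_val, dz_r_zero]) (by simp [nn_val, c.r_one])

theorem dz_L_nm {b : k} {b' : D} (hb : c.P 0 b') (h : c.r b' = b) : dz_L c (nm b) (nm b') :=
  dz_L_of (KO_nm hb) (by simp [nm_val, c.r_one]) (by simp [nm_val, dz_r_zero])
    (by simp [nm_val, h]) (by simp [nm_val, c.r_one])

theorem dz_L_ww : dz_L c (ww k) (ww D) :=
  dz_L_of KO_ww (by simp [ww_val, dz_r_zero]) (by simp [ww_val, c.r_one])
    (by simp [ww_val, c.r_one]) (by simp [ww_val, dz_r_zero])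

theorem dz_L_dg {a d : k} {a' d' : D} (ha : a' ≠ 0) (hd : d' ≠ 0) (ha' : c.v a' = 0)
    (hd' : c.v d' = 0) (h1 : c.r a' = a) (h2 : c.r d' = d) : dz_L c (dg a d) (dg a' d') := by
  have h3 : a ≠ 0 := by rw [← h1]; exact r_ne_zero ha ha'
  have h4 : d ≠ 0 := by rw [← h2]; exact r_ne_zero hd hd'
  exact dz_L_of (KO_dg ha hd ha' hd') (by simp [dg_val ha hd, dg_val h3 h4, h1])
    (by simp [dg_val ha hd, dg_val h3 h4, dz_r_zero])
    (by simp [dg_val ha hd, dg_val h3 h4, dz_r_zero])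
    (by simp [dg_val ha hd, dg_val h3 h4, h2])

theorem dz_fac {g : G2 k} (h : g.val 0 0 ≠ 0) : ∃ y d b : k, d ≠ 0 ∧
    g = nm y * dg (g.val 0 0) d * nn b := by
  have hdet : g.val.det ≠ 0 := by
    have := (Matrix.isUnit_iff_isUnit_det _).1 g.isUnit
    exact this.ne_zero
  rw [Matrix.det_fin_two] at hdet
  refine ⟨g.val 1 0 / g.val 0 0, g.val 1 1 - g.val 1 0 / g.val 0 0 * g.val 0 1,
    g.val 0 1 / g.val 0 0, ?_, ?_⟩
  · intro h0
    apply hdet
    field_simp at h0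
    linear_combination h0
  · have h5 : g.val 1 1 - g.val 1 0 / g.val 0 0 * g.val 0 1 ≠ 0 := by
      intro h0
      apply hdet
      field_simp at h0
      linear_combination h0
    refine ext2 ?_ ?_ ?_ ?_
    · simp [mul00, mul01, mul10, mul11, nn_val, nm_val, dg_val h h5]
    · simp only [mul00, mul01, mul10, mul11, nn_val, nm_val, dg_val h h5, Matrix.of_apply,
        Matrix.cons_val', Matrix.cons_val_zero, Matrix.cons_val_one, Matrix.cons_val_fin_one]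
      field_simp
      ring
    · simp only [mul00, mul01, mul10, mul11, nn_val, nm_val, dg_val h h5, Matrix.of_apply,
        Matrix.cons_val', Matrix.cons_val_zero, Matrix.cons_val_one, Matrix.cons_val_fin_one]
      field_simp
      ring
    · simp only [mul00, mul01, mul10, mul11, nn_val, nm_val, dg_val h h5, Matrix.of_apply,
        Matrix.cons_val', Matrix.cons_val_zero, Matrix.cons_val_one, Matrix.cons_val_fin_one]
      field_simp
      ring

theorem dz_L_ex (g : G2 k) : ∃ x, dz_L c g x := by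
  have key : ∀ g : G2 k, g.val 0 0 ≠ 0 → ∃ x, dz_L c g x := by
    intro g h
    obtain ⟨y, d, b, hd, hg⟩ := dz_fac h
    have h1 := dz_lu (c := c) h
    have h2 := dz_lu (c := c) hd
    refine ⟨nm (dz_l c y) * dg (dz_l c (g.val 0 0)) (dz_l c d) * nn (dz_l c b), ?_⟩
    rw [hg]
    have h3 : (nm y * dg (g.val 0 0) d * nn b).val 0 0 = g.val 0 0 := by rw [← hg]
    rw [h3]
    exact dz_L_mul (dz_L_mul (dz_L_nm (dz_lP _) (dz_lr _))
      (dz_L_dg h1.1 h2.1 h1.2 h2.2 (dz_lr _) (dz_lr _))) (dz_L_nn (dz_lP _) (dz_lr _))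
  by_cases h : g.val 0 0 = 0
  · have hdet : g.val.det ≠ 0 := by
      have := (Matrix.isUnit_iff_isUnit_det _).1 g.isUnit
      exact this.ne_zero
    rw [Matrix.det_fin_two, h, zero_mul, zero_sub] at hdet
    have h1 : g.val 1 0 ≠ 0 := fun h0 => hdet (by rw [h0, mul_zero, neg_zero])
    obtain ⟨x, hx⟩ := key (ww k * g) (by
      have : (ww k * g).val 0 0 = g.val 1 0 := by
        rw [mul00, ww_val]
        simp
      rw [this]
      exact h1)
    refine ⟨ww D * x, ?_⟩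
    have h2 := dz_L_mul (dz_L_ww (c := c)) hx
    rwa [← mul_assoc, ww_ww, one_mul] at h2
  · exact key g h

theorem dz_L_eq {g : G2 k} {x y : G2 D} (hx : dz_L c g x) (hy : dz_L c g y) {f : Sp c}
    (hf : Fix R 1 f) : R.rho x f = R.rho y f := by
  have h1 : KK c 1 (x⁻¹ * y) := by
    intro i j
    have h2 : (x⁻¹ * y).val - 1 = x⁻¹.val * (y.val - x.val) := by
      rw [Units.val_mul, mul_sub, Units.inv_mul]
    have h3 : ∀ i j, c.P 1 ((y.val - x.val) i j) := fun i j => by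
      rw [Matrix.sub_apply]
      exact (r_congr (hy.1.1 _ _) (hx.1.1 _ _)).1 (by rw [hx.2, hy.2])
    rw [h2]
    simp only [Matrix.mul_apply, Fin.sum_univ_two]
    exact P_add (P_mul' (hx.1.2 _ _) (h3 _ _) (by omega)) (P_mul' (hx.1.2 _ _) (h3 _ _) (by omega))
  have h4 := hf _ h1
  rw [rho_mul] at h4
  have h5 := congrArg (R.rho x) h4
  rw [rho_mul_inv] at h5
  exact h5.symm

/-- The chosen lift. -/
noncomputable def dz_G (c : VD D k) (g : G2 k) : G2 D := (dz_L_ex (c := c) g).choose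

theorem dz_GL (g : G2 k) : dz_L c g (dz_G c g) := (dz_L_ex (c := c) g).choose_spec

theorem dz_KE (hA : ST_A) [Finite k] {f : Sp c} (hf : Fix R 1 f) (hf0 : f ≠ 0) (g : G2 k)
    (φ : kˣ → ℂ) : Fix R 1 (R.rho (dz_G c g) (dz_E c φ)) :=
  Fix_KO (dz_GL g).1 (dz_EFix hA hf hf0 φ)

/-- The representation of `GL_2` of the residue field. -/
noncomputable def dz_rho (hA : ST_A) (hZ : ST_DZ0) [Finite k] {f : Sp c} (hf : Fix R 1 f)
    (hf0 : f ≠ 0) : Representation ℂ (G2 k) (kˣ → ℂ) where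
  toFun g := dz_V c ∘ₗ R.rho (dz_G c g) ∘ₗ dz_E c
  map_one' := by
    apply LinearMap.ext
    intro φ
    change dz_V c (R.rho (dz_G c 1) (dz_E c φ)) = φ
    rw [dz_L_eq (dz_GL 1) dz_L_one (dz_EFix hA hf hf0 φ), rho_one, dz_VE]
  map_mul' := by
    intro g h
    apply LinearMap.ext
    intro φ
    change dz_V c (R.rho (dz_G c (g * h)) (dz_E c φ)) =
      dz_V c (R.rho (dz_G c g) (dz_E c (dz_V c (R.rho (dz_G c h) (dz_E c φ)))))
    rw [dz_EV hZ (dz_KE hA hf hf0 h φ), ← rho_mul,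
      dz_L_eq (dz_GL (g * h)) (dz_L_mul (dz_GL g) (dz_GL h)) (dz_EFix hA hf hf0 φ)]

theorem dz_rho_apply (hA : ST_A) (hZ : ST_DZ0) [Finite k] {f : Sp c} (hf : Fix R 1 f)
    (hf0 : f ≠ 0) {g : G2 k} {x : G2 D} (hx : dz_L c g x) (φ : kˣ → ℂ) (a : kˣ) :
    dz_rho hA hZ hf hf0 g φ a = (R.rho x (dz_E c φ)).1 (dz_l c a) := by
  change (dz_V c (R.rho (dz_G c g) (dz_E c φ))) a = _
  rw [dz_L_eq (dz_GL g) hx (dz_EFix hA hf hf0 φ)]
  rfl

theorem dz_rho_E (hA : ST_A) (hZ : ST_DZ0) [Finite k] {f : Sp c} (hf : Fix R 1 f)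
    (hf0 : f ≠ 0) {g : G2 k} {x : G2 D} (hx : dz_L c g x) (φ : kˣ → ℂ) :
    dz_E c (dz_rho hA hZ hf hf0 g φ) = R.rho x (dz_E c φ) := by
  change dz_E c (dz_V c (R.rho (dz_G c g) (dz_E c φ))) = _
  rw [dz_EV hZ (dz_KE hA hf hf0 g φ), dz_L_eq (dz_GL g) hx (dz_EFix hA hf hf0 φ)]

theorem dz_om1 (hA : ST_A) [Finite k] {f : Sp c} (hf : Fix R 1 f) (hf0 : f ≠ 0) {u : D}
    (hu : c.P 1 u) : R.om (1 + u) = 1 := by
  have h1 := one_add hu
  have h2 := dz_EFix hA hf hf0 (fun _ : kˣ => (1 : ℂ)) _ (KK_dg le_rfl hu hu)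
  have h3 : (R.rho (dg (1 + u) (1 + u)) (dz_E c (fun _ : kˣ => (1 : ℂ)))).1 1 =
      (dz_E c (fun _ : kˣ => (1 : ℂ))).1 1 := by rw [h2]
  rw [R.rt _ _ h1.1 h1.1, mul_one, inv_mul_cancel₀ h1.1] at h3
  have h4 : (dz_E c (fun _ : kˣ => (1 : ℂ))).1 1 = 1 :=
    dz_E_of one_ne_zero v_one 1 (by rw [c.r_one]; rfl)
  rw [h4, mul_one] at h3
  exact h3

theorem dz_om (hA : ST_A) [Finite k] {f : Sp c} (hf : Fix R 1 f) (hf0 : f ≠ 0) {x y : D}
    (hx : x ≠ 0) (hxv : c.v x = 0) (hy : c.P 0 y) (h : c.r x = c.r y) : R.om x = R.om y := by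
  obtain ⟨u, hu, rfl⟩ := dz_ratio hx hxv hy h
  rw [map_mul, dz_om1 hA hf hf0 hu, mul_one]

theorem dz_psi {x : D} (hx : c.P 0 x) : c.psi (dz_l c (c.r x)) = c.psi x :=
  psi_O' (dz_lP _) hx (dz_lr _)

/-- The data of the finite field theorem. -/
theorem dz_FD (hA : ST_A) (hZ : ST_DZ0) [Fintype k] [DecidableEq k] (h2 : Even (orderOf c.sg))
    {f : Sp c} (hf : Fix R 1 f) (hf0 : f ≠ 0) : Nonempty (FD k) := by
  obtain ⟨m, hm⟩ := h2
  have hfin : Finite (k ≃+* k) := by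
    refine Finite.of_injective (fun e : k ≃+* k => (e : k → k)) ?_
    exact DFunLike.coe_injective
  have hpos : 0 < orderOf c.sg := orderOf_pos c.sg
  have hm0 : 0 < m := by omega
  have htau2 : ∀ x, (c.sg ^ m) ((c.sg ^ m) x) = x := by
    intro x
    have : (c.sg ^ m * c.sg ^ m) x = x := by
      rw [← pow_add, ← hm, pow_orderOf_eq_one]
      rfl
    exact this
  have hrT : ∀ x, c.P 0 x → c.r (c.T ^ m * x * (c.T ^ m)⁻¹) = (c.sg ^ m) (c.r x) := by
    intro x hx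
    have := r_T_zpow (m : ℤ) hx
    rwa [zpow_natCast, zpow_natCast] at this
  have hT : c.T ^ m ≠ 0 := pow_ne_zero _ c.T_ne
  have hrT' : ∀ x, c.P 0 x → c.r ((c.T ^ m)⁻¹ * x * c.T ^ m) = (c.sg ^ m) (c.r x) := by
    intro x hx
    have h1 := hrT _ (P_conj' hT hx)
    have h3 : c.T ^ m * ((c.T ^ m)⁻¹ * x * c.T ^ m) * (c.T ^ m)⁻¹ = x := by
      rw [mul_assoc, mul_assoc, mul_inv_cancel₀ hT, mul_one, mul_inv_cancel_left₀ hT]
    rw [h3] at h1
    rw [h1, htau2]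
  -- action of the scalar
  have hS : ∀ φ : kˣ → ℂ, dz_E c (fun y => φ (tu (c.sg ^ m) y)) =
      (R.om (c.T ^ m))⁻¹ • R.rho (dg (c.T ^ m) (c.T ^ m)) (dz_E c φ) := by
    intro φ
    have hfix : Fix R 1 (R.rho (dg (c.T ^ m) (c.T ^ m)) (dz_E c φ)) :=
      Fix_scalar hT (dz_EFix hA hf hf0 φ)
    have hom := om_ne (R := R) hT
    have h3 : dz_V c ((R.om (c.T ^ m))⁻¹ • R.rho (dg (c.T ^ m) (c.T ^ m)) (dz_E c φ)) =
        fun y => φ (tu (c.sg ^ m) y) := by
      funext y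
      change (R.om (c.T ^ m))⁻¹ * (R.rho (dg (c.T ^ m) (c.T ^ m)) (dz_E c φ)).1 (dz_l c y) = _
      have hy := dz_lu (c := c) y.ne_zero
      rw [R.rt _ _ hT hT, inv_mul_cancel_left₀ hom]
      refine dz_E_of ?_ ?_ _ ?_
      · exact mul_ne_zero (mul_ne_zero (inv_ne_zero hT) hy.1) hT
      · rw [c.v_mul _ _ (mul_ne_zero (inv_ne_zero hT) hy.1) hT, c.v_mul _ _ (inv_ne_zero hT) hy.1,
          v_inv hT, hy.2]
        omega
      · rw [hrT' _ (dz_lP _), dz_lr]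
        rfl
    rw [← h3]
    exact dz_EV (R := R) hZ ((FixS R 1).smul_mem _ hfix)
  refine ⟨{
    tau := c.sg ^ m
    tau2 := htau2
    taun := ?_
    psi := { toFun := fun a => c.psi (dz_l c a), map_zero_eq_one' := ?_, map_add_eq_mul' := ?_ }
    psin := ?_
    psit := ?_
    om := { toFun := fun a => Units.mk0 (R.om (dz_l c a)) (om_ne (dz_lu (c := c) a.ne_zero).1),
            map_one' := ?_, map_mul' := ?_ }
    rho := dz_rho hA hZ hf hf0
    rn := ?_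
    rt := ?_
    rF := ?_ }⟩
  · by_contra h
    push Not at h
    have h3 : c.sg ^ m ≠ 1 := pow_ne_one_of_lt_orderOf (by omega) (by omega)
    exact h3 (RingEquiv.ext h)
  · rw [c.psi_P _ ((r_zero' (dz_lP _)).1 (dz_lr _))]
  · intro a b
    rw [← AddChar.map_add_eq_mul]
    exact psi_O' (dz_lP _) (P_add (dz_lP _) (dz_lP _))
      (by rw [dz_lr, c.r_add _ _ (dz_lP _) (dz_lP _), dz_lr, dz_lr])
  · intro h
    obtain ⟨x, hx, hx'⟩ := c.psi_O
    apply hx'
    have h3 := DFunLike.congr_fun h (c.r x)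
    change c.psi (dz_l c (c.r x)) = 1 at h3
    rwa [dz_psi hx] at h3
  · intro x
    change c.psi (dz_l c ((c.sg ^ m) x)) = c.psi (dz_l c x)
    have h3 : c.psi (c.T ^ m * dz_l c x * (c.T ^ m)⁻¹) = c.psi (dz_l c x) := by
      rw [c.psi_comm, inv_mul_cancel_left₀ hT]
    rw [← h3, ← dz_psi (P_conj hT (dz_lP _)), hrT _ (dz_lP _), dz_lr]
  · apply Units.ext
    change R.om (dz_l c ((1 : kˣ) : k)) = 1
    rw [← map_one R.om]
    have h1 := dz_lu (c := c) (1 : kˣ).ne_zero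
    exact dz_om hA hf hf0 h1.1 h1.2 P_one (by rw [dz_lr, c.r_one]; rfl)
  · intro a b
    apply Units.ext
    change R.om (dz_l c ((a * b : kˣ) : k)) = R.om (dz_l c a) * R.om (dz_l c b)
    rw [← map_mul R.om]
    have h1 := dz_lu (c := c) (a * b : kˣ).ne_zero
    exact dz_om hA hf hf0 h1.1 h1.2 (P_mul' (dz_lP _) (dz_lP _) (by omega))
      (by rw [dz_lr, c.r_mul _ _ (dz_lP _) (dz_lP _), dz_lr, dz_lr]; rfl)
  · intro b φ x
    rw [dz_rho_apply hA hZ hf hf0 (dz_L_nn (dz_lP b) (dz_lr b)), R.rn]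
    have hx := dz_lu (c := c) x.ne_zero
    rw [dz_E_of hx.1 hx.2 x (dz_lr _)]
    congr 1
    change c.psi (dz_l c x * dz_l c b) = c.psi (dz_l c (x * b))
    exact psi_O' (P_mul' (dz_lP _) (dz_lP _) (by omega)) (dz_lP _)
      (by rw [c.r_mul _ _ (dz_lP _) (dz_lP _), dz_lr, dz_lr, dz_lr])
  · intro a d φ x
    have ha := dz_lu (c := c) a.ne_zero
    have hd := dz_lu (c := c) d.ne_zero
    have hx := dz_lu (c := c) x.ne_zero
    rw [dz_rho_apply hA hZ hf hf0 (dz_L_dg ha.1 hd.1 ha.2 hd.2 (dz_lr _) (dz_lr _)),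
      R.rt _ _ ha.1 hd.1]
    change R.om (dz_l c d) * _ = R.om (dz_l c d) * _
    congr 1
    have hdi : c.P 0 (dz_l c (d : k))⁻¹ := Or.inr (by rw [v_inv hd.1, hd.2]; simp)
    refine dz_E_of (mul_ne_zero (mul_ne_zero (inv_ne_zero hd.1) hx.1) ha.1) ?_ _ ?_
    · rw [c.v_mul _ _ (mul_ne_zero (inv_ne_zero hd.1) hx.1) ha.1,
        c.v_mul _ _ (inv_ne_zero hd.1) hx.1, v_inv hd.1, hx.2, ha.2, hd.2]
      rfl
    · rw [c.r_mul _ _ (P_mul' hdi (dz_lP _) (by omega)) (dz_lP _),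
        c.r_mul _ _ hdi (dz_lP _), r_inv hd.1 hd.2, dz_lr, dz_lr, dz_lr]
      simp
  · intro g φ x
    have h3 : dz_L c (gmap (c.sg ^ m) g)
        (dg (c.T ^ m) (c.T ^ m) * dz_G c g * (dg (c.T ^ m) (c.T ^ m))⁻¹) := by
      have h4 : ∀ i j, (dg (c.T ^ m) (c.T ^ m) * dz_G c g * (dg (c.T ^ m) (c.T ^ m))⁻¹).val i j =
          c.T ^ m * (dz_G c g).val i j * (c.T ^ m)⁻¹ := by
        intro i j
        rw [Units.val_mul, Units.val_mul, dg_val hT hT, dg_inv_val hT hT]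
        simp only [Matrix.mul_apply, Fin.sum_univ_two]
        fin_cases i <;> fin_cases j <;> simp
      have h5 : ∀ i j, (dg (c.T ^ m) (c.T ^ m) * dz_G c g * (dg (c.T ^ m) (c.T ^ m))⁻¹)⁻¹.val i j =
          c.T ^ m * (dz_G c g)⁻¹.val i j * (c.T ^ m)⁻¹ := by
        intro i j
        rw [mul_inv_rev, mul_inv_rev, inv_inv, ← mul_assoc, Units.val_mul, Units.val_mul,
          dg_val hT hT, dg_inv_val hT hT]
        simp only [Matrix.mul_apply, Fin.sum_univ_two]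
        fin_cases i <;> fin_cases j <;> simp
      have h6 := dz_GL (c := c) g
      refine ⟨⟨fun i j => ?_, fun i j => ?_⟩, fun i j => ?_⟩
      · rw [h4]; exact P_conj hT (h6.1.1 _ _)
      · rw [h5]; exact P_conj hT (h6.1.2 _ _)
      · rw [h4, hrT _ (h6.1.1 _ _), h6.2]
        rfl
    have h7 := hS φ
    have h8 := hS (dz_rho hA hZ hf hf0 g φ)
    rw [dz_rho_E hA hZ hf hf0 (dz_GL g)] at h8
    have hx := dz_lu (c := c) x.ne_zero
    rw [dz_rho_apply hA hZ hf hf0 h3, h7, map_smul, rho_mul, rho_mul, rho_inv_mul]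
    have h9 : (dz_E c (fun y => dz_rho hA hZ hf hf0 g φ (tu (c.sg ^ m) y))).1 (dz_l c x) =
        dz_rho hA hZ hf hf0 g φ (tu (c.sg ^ m) x) := dz_E_of hx.1 hx.2 x (dz_lr _)
    rw [← h9, h8]

theorem st_DZ (hA : ST_A) (hZ : ST_DZ0) (hFF : ST_FF) : ST_DZ := by
  intro D k _ _ _ c h2 R f hf
  classical
  have : Fintype k := Fintype.ofFinite k
  by_contra hf0
  obtain ⟨F⟩ := dz_FD (R := R) hA hZ h2 hf hf0
  exact hFF k F

end Pool.Agent.Helper42.QD
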